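import Mathlib

/-! # Hyperbolic penny graphs, small diameters: the data type (ROOM E)

`PM` is a finite map with boundary, with units and gaps. A dart `x : D` is a contact dart with an
inner face on its left; it also stands for the corner of that face at `v x` (the start of `x`).
`sg x` is the next dart of the same face, `rv x` the reverse dart; `rv x = x` means that the other
side of the edge is outside. `rho x = rv (sg⁻¹ x)` is the next corner counterclockwise at the same
point. `tri x`: the face of `x` is a contact triangle (black), otherwise it is white. -/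

set_option autoImplicit false

namespace Pool.Agent.P5

open Classical

noncomputable section

structure PM where
  V : Type
  D : Type
  F : Type
  [fD : Fintype D]
  /-- all points, inner points -/
  P : Finset V
  N : Finset V
  NP : N ⊆ P
  v : D → V
  vP : ∀ x, v x ∈ P
  sg : Equiv.Perm D
  rv : Equiv.Perm D
  rvrv : ∀ x, rv (rv x) = x
  vrv : ∀ x, rv x ≠ x → v (rv x) = v (sg x)
  vne : ∀ x, v x ≠ v (sg x)
  /-- the edges at an inner point are inner edges -/
  inner : ∀ x, v x ∈ N → rv x ≠ x ∧ rv (sg.symm x) ≠ sg.symm x
  /-- the corners at an inner point form one cycle of `rho` (`sg (rv x) = rho⁻¹ x`) -/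
  rot : ∀ p ∈ N, ∀ S : Finset D, S.Nonempty → (∀ x ∈ S, v x = p) →
    (∀ x ∈ S, sg (rv x) ∈ S) → ∀ x, v x = p → x ∈ S
  /-- contact triangles -/
  tri : D → Prop
  tri_sg : ∀ x, tri (sg x) ↔ tri x
  tri3 : ∀ x, tri x → sg (sg (sg x)) = x
  tri1 : ∀ x, tri x → sg x ≠ x
  /-- white faces: `ta f` is the number of triangles of a triangulation of the face (`m - 2` for a
  polygon with `m` sides) -/
  W : Finset F
  fc : D → F
  fc_sg : ∀ x, fc (sg x) = fc x
  fcW : ∀ x, fc x ∈ W ↔ ¬ tri x
  ta : F → ℕ
  /-- number of contact triangles, number of outer darts, defect of Euler's formula -/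
  tt : ℕ
  b : ℕ
  s : ℕ
  htt : 3 * tt = (Finset.univ.filter (fun x : D => tri x)).card
  euler : tt + ∑ f ∈ W, ta f + b + 2 + s = 2 * P.card
  /-- outer darts starting at a point -/
  bo : V → ℕ
  hbo : ∑ p ∈ P \ N, bo p = b
  bo1 : ∀ p ∈ P \ N, 1 ≤ bo p
  /-- units and gaps of the corners; the angle is `al (u - g)` -/
  al : ℝ
  al_pos : 0 < al
  al1 : 2 * Real.pi < 7 * al
  al2 : 3 * al < Real.pi
  u : D → ℕ
  g : D → ℝ
  u_tri : ∀ x, tri x → u x = 1
  g_tri : ∀ x, tri x → g x = 0
  u_w : ∀ x, ¬ tri x → 2 ≤ u x
  g0 : ∀ x, 0 ≤ g x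
  g1 : ∀ x, g x < 1
  /-- the angles at an inner point -/
  pt : ∀ p ∈ N, ∑ x ∈ Finset.univ.filter (fun x : D => v x = p), ((u x : ℝ) - g x) =
    2 * Real.pi / al
  /-- area of a white face, total area -/
  ar : F → ℝ
  Ar : ℝ
  far : ∀ f ∈ W, ∑ x ∈ Finset.univ.filter (fun x : D => fc x = f), al * ((u x : ℝ) - g x) =
    Real.pi * ta f - ar f
  arlow : ∀ f ∈ W, (Real.pi - 3 * al) * ta f ≤ ar f
  artot : ∑ f ∈ W, ar f + (Real.pi - 3 * al) * tt = Ar

attribute [instance] PM.fD

namespace PM

variable (M : PM)

/-- next corner counterclockwise at the same point -/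
def rho : Equiv.Perm M.D := M.sg.symm.trans M.rv

/-- the corners at a point -/
def at' (p : M.V) : Finset M.D := Finset.univ.filter (fun x => M.v x = p)

/-- number of white corners, of triangle corners, sum of the units at a point -/
def cW (p : M.V) : ℕ := ((M.at' p).filter (fun x => ¬ M.tri x)).card
def cT (p : M.V) : ℕ := ((M.at' p).filter (fun x => M.tri x)).card
def un (p : M.V) : ℕ := ∑ x ∈ M.at' p, M.u x

/-- units minus 6 (inner points: at least 1) -/
def k (p : M.V) : ℤ := (M.un p : ℤ) - 6

def eps : ℝ := 2 * Real.pi / M.al - 6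

/-- darts, number of sides, units of a white face -/
def fD' (f : M.F) : Finset M.D := Finset.univ.filter (fun x => M.fc x = f)
def m (f : M.F) : ℕ := (M.fD' f).card
def U (f : M.F) : ℕ := ∑ x ∈ M.fD' f, M.u x

/-- cost of a white face: `5 m - 12 - U` for a polygon -/
def ka (f : M.F) : ℤ := 6 * (M.ta f : ℤ) - M.m f - M.U f

/-- generates the black classes: a triangle dart is equivalent to the next one, every dart to its
reverse -/
def br (x y : M.D) : Prop := (M.tri x ∧ y = M.sg x) ∨ y = M.rv x

/-- black classes: a component of contact triangles together with the white darts on its sides; a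
pair of reverse white darts (digon); a single white dart on the outer boundary -/
def bs : Setoid M.D := Relation.EqvGen.setoid M.br

abbrev B : Type := Quotient M.bs

def bc (x : M.D) : M.B := Quotient.mk M.bs x

instance : Fintype M.B := Fintype.ofFinite _

/-- the numbers of a black class: white darts, triangles (times 3), outer darts -/
def bw (K : M.B) : ℕ := (Finset.univ.filter (fun x => M.bc x = K ∧ ¬ M.tri x)).card
def bt3 (K : M.B) : ℕ := (Finset.univ.filter (fun x => M.bc x = K ∧ M.tri x)).card
def bout (K : M.B) : ℕ := (Finset.univ.filter (fun x => M.bc x = K ∧ M.rv x = x)).card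

/-- next white corner in the sense of `rho` (first return), length of the run in between -/
def rn (z : M.D) : ℕ := sInf {r | ¬ M.tri ((M.rho ^ (r + 1)) z)}
def nx (z : M.D) : M.D := (M.rho ^ (M.rn z + 1)) z

/-- excess of the sector that starts after the white corner `z` -/
def Ds (z : M.D) : ℝ := M.g z + M.g (M.nx z) - 1

/-- excess of the side `x` of a white face -/
def ex (x : M.D) : ℝ := M.g x + M.g (M.sg x) - 1

end PM

end

end Pool.Agent.P5
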