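import Pool.Agent.P5.Defs71

/-! # ROOM E: the counting identity with parameters

`wv` is the value of an inner point, `vb` the value of an outer point; the price of a black class
`K` is `A * bw K - B * bt3 K` (`A = 1 + theta`, `3 B = 1 + 2 theta`). -/

set_option autoImplicit false

namespace Pool.Agent.P5

open Classical

noncomputable section

namespace PM

variable (M : PM)

/-- inner darts, by colour -/
def nW : ℕ := (Finset.univ.filter (fun x : M.D => ¬ M.tri x)).card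
def nT : ℕ := (Finset.univ.filter (fun x : M.D => M.tri x)).card

/-- the value of an inner point -/
def wv (L x A B : ℝ) (p : M.V) : ℝ :=
  L * ((M.k p : ℝ) - 1) + x * ((M.cW p : ℝ) + M.cT p - 6 + M.k p) - 1 + A * M.cW p - B * M.cT p

/-- the value of an outer point -/
def vb (L x A B : ℝ) (p : M.V) : ℝ :=
  -12 * x + 6 * x * M.bo p + x * ((M.cW p : ℝ) + M.cT p + M.un p) + A * M.cW p - B * M.cT p +
    L * (5 * M.bo p + M.un p - 152 / 21)

theorem sum_at' {f : M.D → ℤ} : ∑ p ∈ M.P, ∑ x ∈ M.at' p, f x = ∑ x : M.D, f x := by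
  rw [← Finset.sum_fiberwise_of_maps_to (s := Finset.univ) (t := M.P) (g := M.v)
    (fun x _ => M.vP x)]
  rfl

theorem sum_cW : ∑ p ∈ M.P, (M.cW p : ℤ) = M.nW := by
  have h := M.sum_at' (f := fun x => if ¬ M.tri x then 1 else 0)
  unfold cW nW
  simp only [Finset.card_filter, Nat.cast_sum, Nat.cast_ite, Nat.cast_one, Nat.cast_zero]
  exact h

theorem sum_cT : ∑ p ∈ M.P, (M.cT p : ℤ) = M.nT := by
  have h := M.sum_at' (f := fun x => if M.tri x then 1 else 0)
  unfold cT nT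
  simp only [Finset.card_filter, Nat.cast_sum, Nat.cast_ite, Nat.cast_one, Nat.cast_zero]
  exact h

theorem sum_un : ∑ p ∈ M.P, (M.un p : ℤ) = ∑ x : M.D, (M.u x : ℤ) := by
  have h := M.sum_at' (f := fun x => (M.u x : ℤ))
  unfold un
  push_cast
  exact h

theorem univ_W {f : M.D → ℤ} : ∑ x ∈ Finset.univ.filter (fun x : M.D => ¬ M.tri x), f x =
    ∑ c ∈ M.W, ∑ x ∈ M.fD' c, f x := by
  rw [← Finset.sum_fiberwise_of_maps_to
    (s := Finset.univ.filter (fun x : M.D => ¬ M.tri x)) (t := M.W) (g := M.fc)]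
  · apply Finset.sum_congr rfl
    intro c hc
    apply Finset.sum_congr _ (fun _ _ => rfl)
    ext x
    unfold fD'
    simp only [Finset.mem_filter, Finset.mem_univ, true_and]
    constructor
    · exact fun h => h.2
    · intro h
      refine ⟨?_, h⟩
      rw [← M.fcW, h]
      exact hc
  · intro x hx
    rw [Finset.mem_filter] at hx
    exact (M.fcW x).2 hx.2

theorem sum_m : ∑ c ∈ M.W, (M.m c : ℤ) = M.nW := by
  have h := M.univ_W (f := fun _ => 1)
  unfold nW m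
  simp only [Finset.sum_const, nsmul_eq_mul, mul_one] at h
  rw [h]

theorem sum_u : ∑ x : M.D, (M.u x : ℤ) = M.nT + ∑ c ∈ M.W, (M.U c : ℤ) := by
  have h := M.univ_W (f := fun x => (M.u x : ℤ))
  have h2 := Finset.sum_filter_add_sum_filter_not Finset.univ (fun x : M.D => M.tri x)
    (fun x => (M.u x : ℤ))
  have h3 : ∑ x ∈ Finset.univ.filter (fun x : M.D => M.tri x), (M.u x : ℤ) = M.nT := by
    unfold nT
    rw [Finset.card_eq_sum_ones, Nat.cast_sum]
    apply Finset.sum_congr rfl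
    intro x hx
    rw [Finset.mem_filter] at hx
    rw [M.u_tri x hx.2]
  rw [← h2, h3, h]
  congr 1
  apply Finset.sum_congr rfl
  intro c _
  unfold U
  push_cast
  rfl

theorem card_D : (Fintype.card M.D : ℤ) = M.nT + M.nW := by
  unfold nT nW
  have := Finset.card_filter_add_card_filter_not (s := (Finset.univ : Finset M.D))
    (fun x : M.D => M.tri x)
  rw [← Finset.card_univ]
  omega

/-- points that are not inner -/
def O : Finset M.V := M.P \ M.N

theorem sum_split {f : M.V → ℤ} : ∑ p ∈ M.P, f p = ∑ p ∈ M.N, f p + ∑ p ∈ M.O, f p := by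
  unfold O
  rw [add_comm]
  exact (Finset.sum_sdiff M.NP).symm

theorem card_split : (M.P.card : ℤ) = M.N.card + M.O.card := by
  have := M.sum_split (f := fun _ => 1)
  simpa using this

theorem sum_ka : ∑ c ∈ M.W, M.ka c = 6 * ∑ c ∈ M.W, (M.ta c : ℤ) - M.nW -
    ∑ c ∈ M.W, (M.U c : ℤ) := by
  rw [← M.sum_m, Finset.mul_sum, ← Finset.sum_sub_distrib, ← Finset.sum_sub_distrib]
  rfl

theorem sum_k : ∑ p ∈ M.N, M.k p = ∑ p ∈ M.N, (M.un p : ℤ) - 6 * M.N.card := by
  unfold k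
  rw [Finset.sum_sub_distrib, Finset.sum_const, nsmul_eq_mul]
  ring

theorem htt' : (M.nT : ℤ) = 3 * M.tt := by
  have := M.htt
  unfold nT
  omega

/-- the edges in terms of the cost -/
theorem edges71 : (Fintype.card M.D : ℤ) + M.b = 12 * M.O.card + 5 * M.N.card -
    (∑ p ∈ M.N, (M.k p - 1) + ∑ c ∈ M.W, M.ka c) - ∑ p ∈ M.O, (M.un p : ℤ) - 5 * M.b -
    6 * M.s - 12 := by
  have e1 := M.card_D
  have e2 := M.sum_ka
  have e3 := M.sum_k
  have e4 := M.sum_u
  have e5 := M.sum_un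
  rw [M.sum_split] at e5
  have e6 := M.htt'
  have e7 := M.euler
  have e8 := M.card_split
  have e9 : (M.tt : ℤ) + ∑ c ∈ M.W, (M.ta c : ℤ) + M.b + 2 + M.s = 2 * M.P.card := by
    have := congrArg (fun n : ℕ => (n : ℤ)) e7
    push_cast at this
    exact this
  have e10 : ∑ p ∈ M.N, (M.k p - 1) = ∑ p ∈ M.N, M.k p - M.N.card := by
    rw [Finset.sum_sub_distrib, Finset.sum_const, nsmul_eq_mul, mul_one]
  rw [e10, e2, e3]
  linarith

/-- **the counting identity**: if the total value is nonnegative, the bound for the number of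
edges holds -/
theorem final71 (L x A B : ℝ) (hL : 0 < L)
    (h : 0 ≤ ∑ p ∈ M.N, (M.wv L x A B p + 1 - 5 * L / 21) + (L + x) * ∑ c ∈ M.W, (M.ka c : ℝ) -
      (A * M.nW - B * M.nT) + ∑ p ∈ M.O, M.vb L x A B p +
      (12 * x + 6 * x * M.s + 6 * L * M.s - 6 * L / 7)) :
    21 * ((Fintype.card M.D : ℤ) + M.b) ≤ 100 * M.P.card - 270 := by
  have z1 := M.edges71
  have z2 := M.sum_ka
  have z3 := M.sum_k
  have z4 := M.sum_u
  have z5 := M.sum_un
  rw [M.sum_split] at z5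
  have z6 := M.htt'
  have z8 := M.card_split
  have z9 : (M.tt : ℤ) + ∑ c ∈ M.W, (M.ta c : ℤ) + M.b + 2 + M.s = 2 * M.P.card := by
    have := congrArg (fun n : ℕ => (n : ℤ)) M.euler
    push_cast at this
    exact this
  have z11 := M.sum_cW
  rw [M.sum_split] at z11
  have z12 := M.sum_cT
  rw [M.sum_split] at z12
  have z13 : ∑ p ∈ M.O, (M.bo p : ℤ) = M.b := by
    have := congrArg (fun n : ℕ => (n : ℤ)) M.hbo
    push_cast at this
    exact this
  -- the sums as real numbers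
  obtain ⟨SkN, hSkN⟩ : ∃ y, y = ∑ p ∈ M.N, M.k p := ⟨_, rfl⟩
  obtain ⟨Ska, hSka⟩ : ∃ y, y = ∑ c ∈ M.W, M.ka c := ⟨_, rfl⟩
  obtain ⟨Sta, hSta⟩ : ∃ y, y = ∑ c ∈ M.W, (M.ta c : ℤ) := ⟨_, rfl⟩
  obtain ⟨SU, hSU⟩ : ∃ y, y = ∑ c ∈ M.W, (M.U c : ℤ) := ⟨_, rfl⟩
  obtain ⟨SuN, hSuN⟩ : ∃ y, y = ∑ p ∈ M.N, (M.un p : ℤ) := ⟨_, rfl⟩
  obtain ⟨SuO, hSuO⟩ : ∃ y, y = ∑ p ∈ M.O, (M.un p : ℤ) := ⟨_, rfl⟩
  obtain ⟨SWN, hSWN⟩ : ∃ y, y = ∑ p ∈ M.N, (M.cW p : ℤ) := ⟨_, rfl⟩
  obtain ⟨SWO, hSWO⟩ : ∃ y, y = ∑ p ∈ M.O, (M.cW p : ℤ) := ⟨_, rfl⟩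
  obtain ⟨STN, hSTN⟩ : ∃ y, y = ∑ p ∈ M.N, (M.cT p : ℤ) := ⟨_, rfl⟩
  obtain ⟨STO, hSTO⟩ : ∃ y, y = ∑ p ∈ M.O, (M.cT p : ℤ) := ⟨_, rfl⟩
  have z10 : ∑ p ∈ M.N, (M.k p - 1) = ∑ p ∈ M.N, M.k p - M.N.card := by
    rw [Finset.sum_sub_distrib, Finset.sum_const, nsmul_eq_mul, mul_one]
  rw [z10, ← hSkN, ← hSka, ← hSuO] at z1
  rw [← hSka, ← hSta, ← hSU] at z2
  rw [← hSkN, ← hSuN] at z3
  rw [z4, ← hSuN, ← hSuO, ← hSU] at z5
  rw [← hSta] at z9
  rw [← hSWN, ← hSWO] at z11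
  rw [← hSTN, ← hSTO] at z12
  have y1 : ∑ p ∈ M.N, (M.wv L x A B p + 1 - 5 * L / 21) =
      L * (SkN - M.N.card) + x * (SWN + STN - 6 * M.N.card + SkN) + A * SWN - B * STN -
        5 * L / 21 * M.N.card := by
    rw [hSkN, hSWN, hSTN]
    push_cast
    have : ∀ p, M.wv L x A B p + 1 - 5 * L / 21 = L * (M.k p : ℝ) + x * (M.cW p : ℝ) +
        x * (M.cT p : ℝ) + x * (M.k p : ℝ) + A * M.cW p - B * M.cT p +
        (-L - 6 * x - 5 * L / 21) := by
      intro p
      unfold wv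
      ring
    simp only [this, Finset.sum_add_distrib, Finset.sum_sub_distrib, ← Finset.mul_sum,
      Finset.sum_const, nsmul_eq_mul]
    ring
  have y2 : ∑ c ∈ M.W, (M.ka c : ℝ) = Ska := by
    rw [hSka]
    push_cast
    rfl
  have y3 : ∑ p ∈ M.O, M.vb L x A B p = -12 * x * M.O.card + 6 * x * M.b +
      x * (SWO + STO + SuO) + A * SWO - B * STO + L * (5 * M.b + SuO - 152 / 21 * M.O.card) := by
    have z13' : (M.b : ℝ) = ∑ p ∈ M.O, (M.bo p : ℝ) := by
      have := congrArg (fun n : ℤ => (n : ℝ)) z13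
      push_cast at this
      exact this.symm
    rw [hSWO, hSTO, hSuO, z13']
    push_cast
    have : ∀ p, M.vb L x A B p = 6 * x * (M.bo p : ℝ) + x * (M.cW p : ℝ) +
        x * (M.cT p : ℝ) + x * (M.un p : ℝ) + A * M.cW p - B * M.cT p + 5 * L * (M.bo p : ℝ) +
        L * (M.un p : ℝ) + (-12 * x - 152 / 21 * L) := by
      intro p
      unfold vb
      ring
    simp only [this, Finset.sum_add_distrib, Finset.sum_sub_distrib, ← Finset.mul_sum,
      Finset.sum_const, nsmul_eq_mul]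
    ring
  rw [y1, y2, y3] at h
  -- real versions of the integer identities
  have r2 : (Ska : ℝ) = 6 * Sta - M.nW - SU := by exact_mod_cast z2
  have r3 : (SkN : ℝ) = SuN - 6 * M.N.card := by exact_mod_cast z3
  have r5 : (SuN : ℝ) + SuO = M.nT + SU := by exact_mod_cast z5
  have r6 : (M.nT : ℝ) = 3 * M.tt := by exact_mod_cast z6
  have r8 : (M.P.card : ℝ) = M.N.card + M.O.card := by exact_mod_cast z8
  have r9 : (M.tt : ℝ) + Sta + M.b + 2 + M.s = 2 * M.P.card := by exact_mod_cast z9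
  have r11 : (SWN : ℝ) + SWO = M.nW := by exact_mod_cast z11
  have r12 : (STN : ℝ) + STO = M.nT := by exact_mod_cast z12
  have key : 5 * (M.N.card : ℝ) + 152 * M.O.card + 18 ≤
      21 * ((SkN : ℝ) - M.N.card + Ska + SuO + 5 * M.b + 6 * M.s) := by
    have hpos : 0 ≤ L * (21 * ((SkN : ℝ) - M.N.card + Ska + SuO + 5 * M.b + 6 * M.s) -
        (5 * (M.N.card : ℝ) + 152 * M.O.card + 18)) := by
      have e : L * (21 * ((SkN : ℝ) - M.N.card + Ska + SuO + 5 * M.b + 6 * M.s) -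
          (5 * (M.N.card : ℝ) + 152 * M.O.card + 18)) = 21 * (L * (SkN - M.N.card) + x *
          (SWN + STN - 6 * M.N.card + SkN) + A * SWN - B * STN - 5 * L / 21 * M.N.card +
          (L + x) * Ska - (A * M.nW - B * M.nT) + (-12 * x * M.O.card + 6 * x * M.b +
          x * (SWO + STO + SuO) + A * SWO - B * STO +
          L * (5 * M.b + SuO - 152 / 21 * M.O.card)) +
          (12 * x + 6 * x * M.s + 6 * L * M.s - 6 * L / 7)) := by
        have c1 : A * SWN + A * SWO = A * M.nW := by rw [← mul_add, r11]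
        have c2 : B * STN + B * STO = B * M.nT := by rw [← mul_add, r12]
        have c3 : x * ((SWN : ℝ) + STN - 6 * M.N.card + SkN) + x * Ska + x * (SWO + STO + SuO) +
            (-12 * x * M.O.card + 6 * x * M.b) + (12 * x + 6 * x * M.s) = 0 := by
          have : (SWN : ℝ) + STN - 6 * M.N.card + SkN + Ska + (SWO + STO + SuO) -
              12 * M.O.card + 6 * M.b + 12 + 6 * M.s = 0 := by
            linarith
          linear_combination x * this
        linear_combination 21 * (c2 - c1 - c3)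
      rw [e]
      linarith
    by_contra hcon
    rw [not_le] at hcon
    have := mul_pos hL (sub_pos.2 hcon)
    linarith
  have key' : 5 * (M.N.card : ℤ) + 152 * M.O.card + 18 ≤
      21 * (SkN - M.N.card + Ska + SuO + 5 * M.b + 6 * M.s) := by exact_mod_cast key
  rw [z1]
  linarith

end PM

end

end Pool.Agent.P5
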